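import Pool.Agent.E8helper61.DR.Defs

/-!
# Project DR: sampling
-/

set_option autoImplicit false

namespace Pool.Agent.E8helper61.DR

open Finset Classical

namespace Sam

variable {V : Type} [Fintype V]

/-- functions with prescribed zeros -/
theorem cnt (m : ℕ) (S : Finset V) :
    ((univ.filter fun f : V → Fin (m + 1) => ∀ i ∈ S, f i = 0).card : ℝ) * ((m : ℝ) + 1) ^ S.card =
      ((m : ℝ) + 1) ^ Fintype.card V := by
  have h1 : (univ.filter fun f : V → Fin (m + 1) => ∀ i ∈ S, f i = 0) =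
      Fintype.piFinset fun i => if i ∈ S then {0} else univ := by
    ext f
    rw [mem_filter, Fintype.mem_piFinset]
    constructor
    · rintro ⟨-, h⟩ i
      by_cases hi : i ∈ S
      · rw [if_pos hi, mem_singleton]
        exact h i hi
      · rw [if_neg hi]
        exact mem_univ _
    · intro h
      refine ⟨mem_univ _, fun i hi => ?_⟩
      have := h i
      rw [if_pos hi, mem_singleton] at this
      exact this
  rw [h1, Fintype.card_piFinset]
  have h2 : ((m : ℝ) + 1) ^ S.card = ∏ i : V, (if i ∈ S then ((m : ℝ) + 1) else 1) := by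
    rw [Finset.prod_ite, prod_const, prod_const_one, mul_one]
    congr 2
    ext i
    simp
  rw [h2]
  push_cast
  rw [← Finset.prod_mul_distrib, ← Finset.card_univ, ← Finset.prod_const]
  refine Finset.prod_congr rfl fun i _ => ?_
  split_ifs
  · simp
  · simp

theorem dc (m : ℕ) {ι : Type} (X : Finset ι) (S : ι → Finset V) (r : ℕ)
    (hr : ∀ x ∈ X, (S x).card = r) :
    (∑ f : V → Fin (m + 1), ((X.filter fun x => ∀ i ∈ S x, f i = 0).card : ℝ)) * ((m : ℝ) + 1) ^ r =
      X.card * ((m : ℝ) + 1) ^ Fintype.card V := by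
  have h1 : ∀ f : V → Fin (m + 1), ((X.filter fun x => ∀ i ∈ S x, f i = 0).card : ℝ) =
      ∑ x ∈ X, if (∀ i ∈ S x, f i = 0) then (1 : ℝ) else 0 := by
    intro f
    rw [card_filter]
    push_cast
    rfl
  rw [Finset.sum_congr rfl fun f _ => h1 f, Finset.sum_comm, Finset.sum_mul, ← nsmul_eq_mul,
    ← Finset.sum_const]
  refine Finset.sum_congr rfl fun x hx => ?_
  rw [← cnt m (S x), hr x hx, card_filter]
  push_cast
  rfl

/-- the vertices of colour zero -/
noncomputable def V0 {m : ℕ} (f : V → Fin (m + 1)) : Finset V := univ.filter fun v => f v = 0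

theorem mem_V0 {m : ℕ} (f : V → Fin (m + 1)) (v : V) : v ∈ V0 f ↔ f v = 0 := by
  unfold V0
  rw [mem_filter]
  exact ⟨fun h => h.2, fun h => ⟨mem_univ _, h⟩⟩

theorem card_V0 {m : ℕ} (f : V → Fin (m + 1)) : (V0 f).card =
    ((univ : Finset V).filter fun x => ∀ i ∈ ({x} : Finset V), f i = 0).card := by
  unfold V0
  congr 1
  ext v
  simp

theorem arcs_V0 (A : V → V → Prop) {m : ℕ} (f : V → Fin (m + 1)) : arcs A (V0 f) =
    (((univ ×ˢ univ : Finset (V × V)).filter fun x => A x.1 x.2).filter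
      fun x => ∀ i ∈ ({x.1, x.2} : Finset V), f i = 0).card := by
  unfold arcs
  congr 1
  ext x
  simp only [mem_filter, mem_product, mem_V0, mem_insert, mem_singleton, mem_univ, true_and]
  constructor
  · rintro ⟨⟨h1, h2⟩, h3⟩
    refine ⟨h3, ?_⟩
    rintro i (rfl | rfl)
    · exact h1
    · exact h2
  · rintro ⟨h3, h⟩
    exact ⟨⟨h _ (Or.inl rfl), h _ (Or.inr rfl)⟩, h3⟩

theorem tris_V0 (A : V → V → Prop) {m : ℕ} (f : V → Fin (m + 1)) : tris A (V0 f) =
    (((univ ×ˢ univ ×ˢ univ : Finset (V × V × V)).filter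
      fun x => A x.1 x.2.1 ∧ A x.1 x.2.2 ∧ A x.2.1 x.2.2).filter
      fun x => ∀ i ∈ ({x.1, x.2.1, x.2.2} : Finset V), f i = 0).card := by
  unfold tris
  congr 1
  ext x
  simp only [mem_filter, mem_product, mem_V0, mem_insert, mem_singleton, mem_univ, true_and]
  constructor
  · rintro ⟨⟨h1, h2, h2'⟩, h3⟩
    refine ⟨h3, ?_⟩
    rintro i (rfl | rfl | rfl)
    · exact h1
    · exact h2
    · exact h2'
  · rintro ⟨h3, h⟩
    exact ⟨⟨h _ (Or.inl rfl), h _ (Or.inr (Or.inl rfl)), h _ (Or.inr (Or.inr rfl))⟩, h3⟩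

/-- a good colouring -/
theorem exists_f (A : V → V → Prop) (hl : ∀ v, ¬ A v v) (D K : ℝ) (hD : 1 ≤ D) (hK : 1 ≤ K) (m : ℕ)
    (hq : 4 * D * K ≤ ((m : ℝ) + 1) ^ 2) (he : (arcs A univ : ℝ) ≤ Fintype.card V * D)
    (ht : (tris A univ : ℝ) ≤ Fintype.card V * D * K) :
    ∃ f : V → Fin (m + 1), (Fintype.card V : ℝ) / (2 * ((m : ℝ) + 1)) ≤
      (V0 f).card - tris A (V0 f) - ((m : ℝ) + 1) / (4 * D) * arcs A (V0 f) := by
  set Q : ℝ := (m : ℝ) + 1 with hQ
  have hQ0 : 0 < Q := by positivity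
  set N : ℕ := Fintype.card V with hN
  have hQN : 0 < Q ^ N := by positivity
  have c1 : (∑ f : V → Fin (m + 1), ((V0 f).card : ℝ)) * Q ^ 1 = N * Q ^ N := by
    have := dc (V := V) m (univ : Finset V) (fun x => {x}) 1 fun x _ => card_singleton x
    rw [← hQ, card_univ, ← hN] at this
    rw [← this]
    congr 1
    exact Finset.sum_congr rfl fun f _ => by rw [card_V0]
  have c2 : (∑ f : V → Fin (m + 1), (arcs A (V0 f) : ℝ)) * Q ^ 2 = arcs A univ * Q ^ N := by
    have := dc (V := V) m ((univ ×ˢ univ : Finset (V × V)).filter fun x => A x.1 x.2)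
      (fun x => {x.1, x.2}) 2 fun x hx => by
        rw [mem_filter] at hx
        exact card_pair fun h => hl x.2 (by rw [← h] at hx ⊢; exact hx.2)
    rw [← hQ, ← hN] at this
    rw [Finset.sum_congr rfl fun f _ => by rw [arcs_V0 A f], this]
    rfl
  have c3 : (∑ f : V → Fin (m + 1), (tris A (V0 f) : ℝ)) * Q ^ 3 = tris A univ * Q ^ N := by
    have := dc (V := V) m ((univ ×ˢ univ ×ˢ univ : Finset (V × V × V)).filter
      fun x => A x.1 x.2.1 ∧ A x.1 x.2.2 ∧ A x.2.1 x.2.2)
      (fun x => {x.1, x.2.1, x.2.2}) 3 fun x hx => by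
        rw [mem_filter] at hx
        obtain ⟨-, h1, h2, h3⟩ := hx
        rw [card_eq_three]
        refine ⟨x.1, x.2.1, x.2.2, fun h => ?_, fun h => ?_, fun h => ?_, rfl⟩
        · rw [h] at h1; exact hl _ h1
        · rw [h] at h2; exact hl _ h2
        · rw [h] at h3; exact hl _ h3
    rw [← hQ, ← hN] at this
    rw [Finset.sum_congr rfl fun f _ => by rw [tris_V0 A f], this]
    rfl
  have s1 : ∑ f : V → Fin (m + 1), ((V0 f).card : ℝ) = N * Q ^ N / Q := by
    rw [eq_div_iff hQ0.ne', ← c1, pow_one]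
  have s2 : ∑ f : V → Fin (m + 1), (arcs A (V0 f) : ℝ) = arcs A univ * Q ^ N / Q ^ 2 := by
    rw [eq_div_iff (by positivity), ← c2]
  have s3 : ∑ f : V → Fin (m + 1), (tris A (V0 f) : ℝ) = tris A univ * Q ^ N / Q ^ 3 := by
    rw [eq_div_iff (by positivity), ← c3]
  have hcard : ((univ : Finset (V → Fin (m + 1))).card : ℝ) = Q ^ N := by
    rw [card_univ, Fintype.card_fun, Fintype.card_fin]
    push_cast
    rfl
  obtain ⟨f, -, hf⟩ := Finset.exists_le_of_sum_le (s := (univ : Finset (V → Fin (m + 1))))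
    (f := fun _ => (N : ℝ) / (2 * Q))
    (g := fun f => ((V0 f).card : ℝ) - tris A (V0 f) - Q / (4 * D) * arcs A (V0 f))
    univ_nonempty (by
      rw [Finset.sum_const, nsmul_eq_mul, hcard, Finset.sum_sub_distrib, Finset.sum_sub_distrib,
        ← Finset.mul_sum, s1, s2, s3]
      have e1 : (tris A univ : ℝ) * Q ^ N / Q ^ 3 ≤ N * Q ^ N / (4 * Q) := by
        rw [div_le_div_iff₀ (by positivity) (by positivity)]
        have h1 : (tris A univ : ℝ) * 4 ≤ N * Q ^ 2 := by
          have h2 : (N : ℝ) * (4 * D * K) ≤ N * Q ^ 2 :=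
            mul_le_mul_of_nonneg_left hq (Nat.cast_nonneg N)
          nlinarith
        calc (tris A univ : ℝ) * Q ^ N * (4 * Q) = (tris A univ * 4) * (Q ^ N * Q) := by ring
          _ ≤ (N * Q ^ 2) * (Q ^ N * Q) := mul_le_mul_of_nonneg_right h1 (by positivity)
          _ = N * Q ^ N * Q ^ 3 := by ring
      have e2 : Q / (4 * D) * ((arcs A univ : ℝ) * Q ^ N / Q ^ 2) ≤ N * Q ^ N / (4 * Q) := by
        have : Q / (4 * D) * ((arcs A univ : ℝ) * Q ^ N / Q ^ 2) =
            (arcs A univ : ℝ) * (Q ^ N / (4 * D * Q)) := by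
          field_simp
        rw [this]
        calc (arcs A univ : ℝ) * (Q ^ N / (4 * D * Q)) ≤ (N * D) * (Q ^ N / (4 * D * Q)) :=
            mul_le_mul_of_nonneg_right he (by positivity)
          _ = N * Q ^ N / (4 * Q) := by field_simp
      have e3 : Q ^ N * ((N : ℝ) / (2 * Q)) =
          N * Q ^ N / Q - N * Q ^ N / (4 * Q) - N * Q ^ N / (4 * Q) := by
        field_simp
        ring
      rw [e3]
      linarith)
  exact ⟨f, hf⟩

end Sam

open Sam in
theorem t_SAM : S_SAM := by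
  intro V _ A hl D K hD hK q hq0 hq he ht
  obtain ⟨m, rfl⟩ : ∃ m, q = m + 1 := ⟨q - 1, by omega⟩
  push_cast at hq ⊢
  obtain ⟨f, hf⟩ := exists_f A hl D K hD hK m hq he ht
  set W := V0 f with hW
  set U := W.filter fun u => ¬ ∃ v ∈ W, ∃ w ∈ W, A u v ∧ A u w ∧ A v w with hU
  have hUW : U ⊆ W := filter_subset _ _
  have h1 : (W.card : ℝ) ≤ U.card + tris A W := by
    have h2 : W.filter (fun u => ∃ v ∈ W, ∃ w ∈ W, A u v ∧ A u w ∧ A v w) ⊆
        ((W ×ˢ W ×ˢ W).filter fun x => A x.1 x.2.1 ∧ A x.1 x.2.2 ∧ A x.2.1 x.2.2).image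
          fun x => x.1 := by
      intro u hu
      rw [mem_filter] at hu
      obtain ⟨hu, v, hv, w, hw, h⟩ := hu
      rw [mem_image]
      exact ⟨(u, v, w), mem_filter.2 ⟨mem_product.2 ⟨hu, mem_product.2 ⟨hv, hw⟩⟩, h⟩, rfl⟩
    have h3 := (card_le_card h2).trans card_image_le
    have h4 := Finset.card_filter_add_card_filter_not (s := W)
      (fun u => ∃ v ∈ W, ∃ w ∈ W, A u v ∧ A u w ∧ A v w)
    have h5 : W.card ≤ U.card + tris A W := by
      rw [← h4, add_comm]
      exact Nat.add_le_add_left h3 _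
    exact_mod_cast h5
  have h6 : (arcs A U : ℝ) ≤ arcs A W := by
    have : arcs A U ≤ arcs A W := by
      unfold arcs
      exact card_le_card (filter_subset_filter _ (product_subset_product hUW hUW))
    exact_mod_cast this
  have hm : (0 : ℝ) < (m : ℝ) + 1 := by positivity
  have hD0 : 0 < D := by linarith
  have hlam : 0 ≤ ((m : ℝ) + 1) / (4 * D) := by positivity
  have h7 : (Fintype.card V : ℝ) / (2 * ((m : ℝ) + 1)) + ((m : ℝ) + 1) / (4 * D) * arcs A U ≤
      U.card := by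
    have := mul_le_mul_of_nonneg_left h6 hlam
    linarith
  have h8 : 0 ≤ (Fintype.card V : ℝ) / (2 * ((m : ℝ) + 1)) := by positivity
  have h9 : 0 ≤ ((m : ℝ) + 1) / (4 * D) * arcs A U := by positivity
  refine ⟨U, ?_, ?_, ?_⟩
  · intro u hu v hv w hw h
    rw [hU, mem_filter] at hu
    exact hu.2 ⟨v, hUW hv, w, hUW hw, h⟩
  · have h10 : (Fintype.card V : ℝ) / (2 * ((m : ℝ) + 1)) ≤ U.card := by linarith
    rw [div_le_iff₀ (by positivity)] at h10
    linarith
  · have h11 : ((m : ℝ) + 1) / (4 * D) * arcs A U ≤ U.card := by linarith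
    rw [div_mul_eq_mul_div, div_le_iff₀ (by positivity)] at h11
    linarith

end Pool.Agent.E8helper61.DR
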